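import Pool.Agent.GO.Main

/-!
The orbit of the r.e. generic sets is not definable in the lattice of r.e. sets by a Boolean
combination of `∃∀` formulas: every class of r.e. sets that is defined by such a combination and
contains the orbit contains also a simple set outside of the orbit.
-/

set_option autoImplicit false

namespace Pool.Agent.Results.MP_85db69_lc.NotBoolSigmaTwo

open Pool.Agent.GO

theorem result : ¬ BoolSigma2 genericOrbit ∧
    ∀ S : Set EE, BoolSigma2 S → genericOrbit ⊆ S →
      ∃ B ∈ S, IsSimple B.1 ∧ B ∉ genericOrbit :=
  ⟨main.1, main.2.1⟩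

end Pool.Agent.Results.MP_85db69_lc.NotBoolSigmaTwo
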