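import Pool.Agent.GO.Main

/-!
An `∃∀` formula is true at some member of the orbit of the r.e. generic sets if and only if it is
true at some simple set.
-/

set_option autoImplicit false

namespace Pool.Agent.Results.MP_85db69_lc.SigmaTwoType

open Pool.Agent.GO

theorem result : ∀ φ : QF,
    (∃ A ∈ genericOrbit, A ∈ sigma2 φ) ↔ ∃ A : EE, IsSimple A.1 ∧ A ∈ sigma2 φ :=
  main.2.2

end Pool.Agent.Results.MP_85db69_lc.SigmaTwoType
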